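import Mathlib

/-!
# Primitive groups representable by coloured digraphs but not by coloured hypergraphs

A primitive permutation group which is the automorphism group of a coloured digraph but not of a
coloured hypergraph is generated by a cycle of length three or five.
-/

namespace Pool.Agent.Results.MP_c04211_al.OnlyC3C5

open Equiv

variable {V : Type}

/-- The group `A` is transitive and preserves no nontrivial partition (equivalence relation). -/
def Primitive (A : Subgroup (Perm V)) : Prop :=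
  (∀ x y : V, ∃ a ∈ A, a x = y) ∧
    ∀ r : Setoid V, (∀ a ∈ A, ∀ x y : V, r x y → r (a x) (a y)) → r = ⊥ ∨ r = ⊤

/-- `A` is the automorphism group of a coloured digraph: a colouring `c` of the ordered pairs of
distinct points. -/
def DGR (A : Subgroup (Perm V)) : Prop :=
  ∃ (C : Type) (c : V → V → C),
    ∀ σ : Perm V, σ ∈ A ↔ ∀ x y : V, x ≠ y → c (σ x) (σ y) = c x y

/-- `A` is the automorphism group of a coloured hypergraph: a colouring `h` of the subsets. -/
def BGR (A : Subgroup (Perm V)) : Prop :=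
  ∃ (C : Type) (h : Set V → C), ∀ σ : Perm V, σ ∈ A ↔ ∀ U : Set V, h (σ '' U) = h U

/-- `σ` preserves the `A`-orbits on subsets. -/
def Pres (A : Subgroup (Perm V)) (σ : Perm V) : Prop := ∀ U : Set V, ∃ a ∈ A, σ '' U = a '' U

lemma inv_self (a : Perm V) (u : V) : a⁻¹ (a u) = u := by
  rw [← Perm.mul_apply, inv_mul_cancel, Perm.one_apply]

lemma self_inv (a : Perm V) (u : V) : a (a⁻¹ u) = u := by
  rw [← Perm.mul_apply, mul_inv_cancel, Perm.one_apply]

lemma Pres.of_mem {A : Subgroup (Perm V)} {a : Perm V} (ha : a ∈ A) : Pres A a :=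
  fun _ => ⟨a, ha, rfl⟩

lemma Pres.mul {A : Subgroup (Perm V)} {σ τ : Perm V} (hσ : Pres A σ) (hτ : Pres A τ) :
    Pres A (σ * τ) := by
  intro U
  obtain ⟨a, ha, h1⟩ := hτ U
  obtain ⟨b, hb, h2⟩ := hσ (a '' U)
  refine ⟨b * a, A.mul_mem hb ha, ?_⟩
  rw [Perm.coe_mul, Set.image_comp, h1, h2, Perm.coe_mul, Set.image_comp]

/-- If every permutation preserving the orbits on subsets is in `A`, then `A` is in `BGR`. -/
lemma bgr_of_pres {A : Subgroup (Perm V)} (h : ∀ σ, Pres A σ → σ ∈ A) : BGR A := by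
  refine ⟨Set (Set V), fun U => {W | ∃ a ∈ A, W = a '' U}, fun σ => ⟨fun hσ U => ?_, fun hσ => ?_⟩⟩
  · ext W
    constructor
    · rintro ⟨a, ha, rfl⟩
      exact ⟨a * σ, A.mul_mem ha hσ, by rw [Perm.coe_mul, Set.image_comp]⟩
    · rintro ⟨a, ha, rfl⟩
      refine ⟨a * σ⁻¹, A.mul_mem ha (A.inv_mem hσ), ?_⟩
      rw [Perm.coe_mul, Set.image_comp]
      congr 1
      rw [← Set.image_comp, ← Perm.coe_mul, inv_mul_cancel, Perm.coe_one, Set.image_id]
  · refine h σ fun U => ?_
    have h2 : {W | ∃ a ∈ A, W = a '' (σ '' U)} = {W | ∃ a ∈ A, W = a '' U} := hσ U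
    have h1 : σ '' U ∈ {W | ∃ a ∈ A, W = a '' U} := by
      rw [← h2]
      exact ⟨1, A.one_mem, by simp⟩
    exact h1

section Main

variable {A : Subgroup (Perm V)} {x y : V}

/-- The orbital of `(x, y)`. -/
def D (A : Subgroup (Perm V)) (x y : V) (u v : V) : Prop := ∃ a ∈ A, a x = u ∧ a y = v

lemma D.smul {u v : V} {a : Perm V} (ha : a ∈ A) (h : D A x y u v) : D A x y (a u) (a v) := by
  obtain ⟨b, hb, h1, h2⟩ := h
  exact ⟨a * b, A.mul_mem ha hb, by simp [h1], by simp [h2]⟩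

lemma D.of_smul {u v : V} {a : Perm V} (ha : a ∈ A) (h : D A x y (a u) (a v)) : D A x y u v := by
  have := D.smul (A.inv_mem ha) h
  simpa using this

lemma D.antisymm (hxy : ¬ D A x y y x) {u v : V} (h : D A x y u v) : ¬ D A x y v u := by
  intro h'
  obtain ⟨a, ha, h1, h2⟩ := h
  refine hxy (D.of_smul ha ?_)
  rwa [h1, h2]

lemma D.ne (hxy : ¬ D A x y y x) {u v : V} (h : D A x y u v) : u ≠ v := by
  rintro rfl
  exact h.antisymm hxy h

/-- A set of two points is mapped as by an element of `A`. -/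
lemma Pres.pair {σ : Perm V} (hσ : Pres A σ) (u v : V) :
    ∃ a ∈ A, (σ u = a u ∧ σ v = a v) ∨ (σ u = a v ∧ σ v = a u) := by
  obtain ⟨a, ha, h⟩ := hσ {u, v}
  refine ⟨a, ha, ?_⟩
  rw [Set.image_pair, Set.image_pair, Set.pair_eq_pair_iff] at h
  exact h

/-- The symmetrised relation. -/
def E (A : Subgroup (Perm V)) (x y : V) (u v : V) : Prop := D A x y u v ∨ D A x y v u

lemma E.smul {u v : V} {a : Perm V} (ha : a ∈ A) (h : E A x y u v) : E A x y (a u) (a v) :=
  h.imp (D.smul ha) (D.smul ha)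

lemma E.of_smul {u v : V} {a : Perm V} (ha : a ∈ A) (h : E A x y (a u) (a v)) : E A x y u v :=
  h.imp (D.of_smul ha) (D.of_smul ha)

lemma E.symm {u v : V} (h : E A x y u v) : E A x y v u := h.elim Or.inr Or.inl

lemma E.pres {σ : Perm V} (hσ : Pres A σ) {u v : V} : E A x y (σ u) (σ v) ↔ E A x y u v := by
  obtain ⟨a, ha, ⟨h1, h2⟩ | ⟨h1, h2⟩⟩ := hσ.pair u v
  · rw [h1, h2]
    exact ⟨E.of_smul ha, E.smul ha⟩
  · rw [h1, h2]
    exact ⟨fun h => (E.of_smul ha h).symm, fun h => E.smul ha h.symm⟩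

/-- The out-neighbours of a point are pairwise joined. -/
lemma tournament (hxy : ¬ D A x y y x) (hsw : ∀ u v, D A x y u v → ∃ σ, Pres A σ ∧ σ u = v ∧ σ v = u)
    {u v w : V} (hv : D A x y u v) (hw : D A x y u w) (hvw : v ≠ w) : E A x y v w := by
  by_contra hE
  obtain ⟨σ, hσ, h1, h2⟩ := hsw u v hv
  obtain ⟨a, ha, hU⟩ := hσ {u, v, w}
  have huv := hv.ne hxy
  have huw := hw.ne hxy
  have e1 : E A x y (σ u) (σ v) := (E.pres hσ).2 (Or.inl hv)
  have e2 : E A x y (σ u) (σ w) := (E.pres hσ).2 (Or.inl hw)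
  have e3 : ¬ E A x y (a v) (a w) := fun h => hE (E.of_smul ha h)
  have m1 : σ u ∈ a '' {u, v, w} := by rw [← hU]; exact ⟨u, by simp, rfl⟩
  have m2 : σ v ∈ a '' {u, v, w} := by rw [← hU]; exact ⟨v, by simp, rfl⟩
  have m3 : σ w ∈ a '' {u, v, w} := by rw [← hU]; exact ⟨w, by simp, rfl⟩
  have n1 : σ u ≠ σ v := fun h => huv (σ.injective h)
  have n2 : σ u ≠ σ w := fun h => huw (σ.injective h)
  have n3 : σ v ≠ σ w := fun h => hvw (σ.injective h)
  have d1 : ¬ D A x y (σ u) (σ v) := by rw [h1, h2]; exact hv.antisymm hxy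
  have d2 := D.smul ha hv
  have d3 := D.smul ha hw
  simp only [Set.image_insert_eq, Set.image_singleton, Set.mem_insert_iff,
    Set.mem_singleton_iff] at m1 m2 m3
  rcases m1 with m1 | m1 | m1
  · rcases m2 with m2 | m2 | m2
    · exact n1 (m1.trans m2.symm)
    · rw [m1, m2] at d1; exact d1 d2
    · rw [m1, m2] at d1; exact d1 d3
  · rcases m2 with m2 | m2 | m2
    · rcases m3 with m3 | m3 | m3
      · exact n3 (m2.trans m3.symm)
      · exact n2 (m1.trans m3.symm)
      · rw [m1, m3] at e2; exact e3 e2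
    · exact n1 (m1.trans m2.symm)
    · rw [m1, m2] at e1; exact e3 e1
  · rcases m2 with m2 | m2 | m2
    · rcases m3 with m3 | m3 | m3
      · exact n3 (m2.trans m3.symm)
      · rw [m1, m3] at e2; exact e3 e2.symm
      · exact n2 (m1.trans m3.symm)
    · rw [m1, m2] at e1; exact e3 e1.symm
    · exact n1 (m1.trans m2.symm)

/-- There is no cyclic triangle among the out-neighbours of a point. -/
lemma no_cycle (hxy : ¬ D A x y y x) (hsw : ∀ u v, D A x y u v → ∃ σ, Pres A σ ∧ σ u = v ∧ σ v = u)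
    {u p q r : V} (hp : D A x y u p) (hq : D A x y u q) (hr : D A x y u r)
    (hpq : D A x y p q) (hqr : D A x y q r) (hrp : D A x y r p) : False := by
  obtain ⟨σ, hσ, h1, h2⟩ := hsw u p hp
  obtain ⟨a, ha, hU⟩ := hσ {u, p, q, r}
  obtain ⟨b, hb, hT⟩ := hσ {p, q, r}
  have d1 : ¬ D A x y (σ u) (σ p) := by rw [h1, h2]; exact hp.antisymm hxy
  have m1 : σ u ∈ a '' {u, p, q, r} := by rw [← hU]; exact ⟨u, by simp, rfl⟩
  have m2 : σ p ∈ a '' {u, p, q, r} := by rw [← hU]; exact ⟨p, by simp, rfl⟩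
  have n1 : σ u ≠ σ p := fun h => hp.ne hxy (σ.injective h)
  -- `σ u` is not in the image of the triangle
  have hnot : σ u ∉ σ '' {p, q, r} := by
    rintro ⟨t, ht, ht'⟩
    have := σ.injective ht'
    subst this
    simp only [Set.mem_insert_iff, Set.mem_singleton_iff] at ht
    rcases ht with ht | ht | ht
    · exact hp.ne hxy ht
    · exact hq.ne hxy ht
    · exact hr.ne hxy ht
  -- every point of the triangle `b '' {p, q, r}` dominates only one other point
  have hcyc : ∀ s ∈ b '' {p, q, r}, ∀ t ∈ b '' {p, q, r}, ∀ t' ∈ b '' {p, q, r},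
      D A x y s t → D A x y s t' → t = t' := by
    intro s hs t ht t' ht' h h'
    simp only [Set.image_insert_eq, Set.image_singleton, Set.mem_insert_iff,
      Set.mem_singleton_iff] at hs ht ht'
    have c1 := D.smul hb hpq
    have c2 := D.smul hb hqr
    have c3 := D.smul hb hrp
    rcases hs with rfl | rfl | rfl <;> rcases ht with rfl | rfl | rfl <;>
      rcases ht' with rfl | rfl | rfl <;>
      first
      | rfl
      | exact absurd rfl (h.ne hxy)
      | exact absurd rfl (h'.ne hxy)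
      | exact absurd h (c1.antisymm hxy)
      | exact absurd h (c2.antisymm hxy)
      | exact absurd h (c3.antisymm hxy)
      | exact absurd h' (c1.antisymm hxy)
      | exact absurd h' (c2.antisymm hxy)
      | exact absurd h' (c3.antisymm hxy)
  rw [hT] at hnot
  have sub : ∀ t ∈ ({u, p, q, r} : Set V), a t ≠ σ u → a t ∈ b '' {p, q, r} := by
    intro t ht hne
    have h3 : a t ∈ σ '' {u, p, q, r} := by rw [hU]; exact ⟨t, ht, rfl⟩
    rw [← hT]
    obtain ⟨s, hs, hs'⟩ := h3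
    refine ⟨s, ?_, hs'⟩
    rcases hs with rfl | hs
    · exact absurd hs'.symm hne
    · exact hs
  have ap := D.smul ha hp
  have aq := D.smul ha hq
  have ar := D.smul ha hr
  have npq : a p ≠ a q := fun h => hpq.ne hxy (a.injective h)
  have nqr : a q ≠ a r := fun h => hqr.ne hxy (a.injective h)
  have nrp : a r ≠ a p := fun h => hrp.ne hxy (a.injective h)
  have nup : a u ≠ a p := fun h => hp.ne hxy (a.injective h)
  have nuq : a u ≠ a q := fun h => hq.ne hxy (a.injective h)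
  have nur : a u ≠ a r := fun h => hr.ne hxy (a.injective h)
  simp only [Set.image_insert_eq, Set.image_singleton, Set.mem_insert_iff,
    Set.mem_singleton_iff] at m1 m2
  rcases m1 with m1 | m1 | m1 | m1
  · rcases m2 with m2 | m2 | m2 | m2
    · exact n1 (m1.trans m2.symm)
    · rw [m1, m2] at d1; exact d1 ap
    · rw [m1, m2] at d1; exact d1 aq
    · rw [m1, m2] at d1; exact d1 ar
  · exact nqr (hcyc (a u) (sub u (by simp) (by rw [m1]; exact nup)) (a q)
      (sub q (by simp) (by rw [m1]; exact npq.symm)) (a r)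
      (sub r (by simp) (by rw [m1]; exact nrp)) aq ar)
  · exact nrp.symm (hcyc (a u) (sub u (by simp) (by rw [m1]; exact nuq)) (a p)
      (sub p (by simp) (by rw [m1]; exact npq)) (a r)
      (sub r (by simp) (by rw [m1]; exact nqr.symm)) ap ar)
  · exact npq (hcyc (a u) (sub u (by simp) (by rw [m1]; exact nur)) (a p)
      (sub p (by simp) (by rw [m1]; exact nrp.symm)) (a q)
      (sub q (by simp) (by rw [m1]; exact nqr)) ap aq)

lemma exists_source [Finite V] (hxy : ¬ D A x y y x)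
    (hsw : ∀ u v, D A x y u v → ∃ σ, Pres A σ ∧ σ u = v ∧ σ v = u) {u v₀ : V}
    (h₀ : D A x y u v₀) :
    ∃ s, D A x y u s ∧ ∀ t, D A x y u t → t ≠ s → D A x y s t := by
  obtain ⟨s, hs, hmax⟩ := Set.exists_max_image {v | D A x y u v}
    (fun s => Set.ncard {t | D A x y u t ∧ D A x y s t}) (Set.toFinite _) ⟨v₀, h₀⟩
  refine ⟨s, hs, fun t ht hts => ?_⟩
  by_contra hst
  have hts' : D A x y t s := (tournament hxy hsw hs ht hts.symm).resolve_left hst
  have hlt : Set.ncard {w | D A x y u w ∧ D A x y s w} < Set.ncard {w | D A x y u w ∧ D A x y t w} := by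
    refine Set.ncard_lt_ncard ⟨?_, ?_⟩ (Set.toFinite _)
    · rintro w ⟨hw, hsw'⟩
      refine ⟨hw, ?_⟩
      have hwt : t ≠ w := by
        rintro rfl
        exact hst hsw'
      rcases tournament hxy hsw ht hw hwt with h | h
      · exact h
      · exact (no_cycle hxy hsw ht hs hw hts' hsw' h).elim
    · intro hsub
      exact ((hsub ⟨hs, hts'⟩).2.ne hxy) rfl
  exact absurd (hmax t ht) (not_le.2 hlt)

lemma out_unique [Finite V] (hxy : ¬ D A x y y x)
    (hsw : ∀ u v, D A x y u v → ∃ σ, Pres A σ ∧ σ u = v ∧ σ v = u) {u v w : V}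
    (hv : D A x y u v) (hw : D A x y u w) : v = w := by
  obtain ⟨s, hs, hsrc⟩ := exists_source hxy hsw hv
  have key : ∀ t, D A x y u t → t = s := by
    intro t ht
    by_contra hts
    obtain ⟨g, hg, g1, g2⟩ := hs
    obtain ⟨k, hk, k1, k2⟩ := ht
    have ha : k * g⁻¹ ∈ A := A.mul_mem hk (A.inv_mem hg)
    have au : (k * g⁻¹) u = u := by
      rw [Perm.mul_apply, ← g1, inv_self, k1, g1]
    have as : (k * g⁻¹) s = t := by
      rw [Perm.mul_apply, ← g2, inv_self, k2]
    set a := k * g⁻¹ with ha'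
    have hs' : D A x y u (a⁻¹ s) := by
      refine D.of_smul ha ?_
      rw [au, self_inv]
      exact ⟨g, hg, g1, g2⟩
    have hst : D A x y s t := hsrc t ⟨k, hk, k1, k2⟩ hts
    by_cases h : a⁻¹ s = s
    · have : a s = s := by
        conv_lhs => rw [← h]
        rw [self_inv]
      exact hts (as.symm.trans this)
    · have h2 := D.smul ha (hsrc _ hs' h)
      rw [as, self_inv] at h2
      exact hst.antisymm hxy h2
  rw [key v hv, key w hw]

end Main

section Cycle

variable {F : Perm V}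

lemma pow_eq_one (hF : ∀ u v, F.SameCycle u v) {k : ℤ} {u : V} (h : (F ^ k) u = u) : F ^ k = 1 := by
  ext v
  obtain ⟨j, rfl⟩ := hF u v
  rw [← Perm.mul_apply, (Commute.refl F).zpow_zpow k j |>.eq, Perm.mul_apply, h, Perm.one_apply]

lemma zpow_eq_iff (hF : ∀ u v, F.SameCycle u v) {i j : ℤ} {u : V} :
    (F ^ i) u = (F ^ j) u ↔ (orderOf F : ℤ) ∣ i - j := by
  rw [orderOf_dvd_iff_zpow_eq_one]
  constructor
  · intro h
    refine pow_eq_one hF (u := u) ?_
    rw [sub_eq_add_neg, add_comm, zpow_add, Perm.mul_apply, h, ← Perm.mul_apply, ← zpow_add]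
    simp
  · intro h
    have : F ^ i = F ^ j := by
      rw [← mul_inv_eq_one, ← zpow_neg, ← zpow_add, ← sub_eq_add_neg, h]
    rw [this]

/-- A permutation commuting with a full cycle is a power of it. -/
lemma mem_of_commute [Nonempty V] (hF : ∀ u v, F.SameCycle u v) {σ : Perm V}
    (h : ∀ u, σ (F u) = F (σ u)) : σ ∈ Subgroup.zpowers F := by
  have hc : Commute σ F := by
    ext u
    exact h u
  obtain ⟨u⟩ := ‹Nonempty V›
  obtain ⟨k, hk⟩ := hF u (σ u)
  refine ⟨k, ?_⟩
  ext v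
  obtain ⟨j, rfl⟩ := hF u v
  change (F ^ k) ((F ^ j) u) = σ ((F ^ j) u)
  rw [← Perm.mul_apply, (Commute.refl F).zpow_zpow k j |>.eq, Perm.mul_apply, hk,
    ← Perm.mul_apply, ← Perm.mul_apply, (hc.zpow_right j).eq]

lemma card_eq [Finite V] (hF : ∀ u v, F.SameCycle u v) (hne : ∀ u, F u ≠ u) [Nonempty V] :
    Nat.card V = orderOf F := by
  classical
  have := Fintype.ofFinite V
  have hc : F.IsCycle := by
    obtain ⟨u⟩ := ‹Nonempty V›
    exact ⟨u, hne u, fun v _ => hF u v⟩
  rw [hc.orderOf]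
  have : F.support = Finset.univ := by
    ext v
    simp [hne v]
  rw [this, Nat.card_eq_fintype_card, Finset.card_univ]

lemma comm_of_mem {a : Perm V} (ha : a ∈ Subgroup.zpowers F) (u : V) : a (F u) = F (a u) := by
  obtain ⟨k, rfl⟩ := ha
  change (F ^ k) (F u) = F ((F ^ k) u)
  rw [← Perm.mul_apply, ← Perm.mul_apply, (Commute.zpow_self F k).eq]

lemma comm_zpow_of_mem {a : Perm V} (ha : a ∈ Subgroup.zpowers F) (j : ℤ) (u : V) :
    a ((F ^ j) u) = (F ^ j) (a u) := by
  obtain ⟨k, rfl⟩ := ha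
  change (F ^ k) ((F ^ j) u) = (F ^ j) ((F ^ k) u)
  rw [← Perm.mul_apply, ← Perm.mul_apply, ((Commute.refl F).zpow_zpow k j).eq]

/-- A full cycle of length at least six generates a group in `BGR`. -/
lemma bgr_of_six_le [Nonempty V] [Finite V] (hF : ∀ u v, F.SameCycle u v) (h6 : 6 ≤ orderOf F) :
    BGR (Subgroup.zpowers F) := by
  refine bgr_of_pres fun σ hσ => ?_
  have hdvd : ∀ {i j : ℤ} {u : V}, (F ^ i) u = (F ^ j) u → |i - j| < 6 → i = j := by
    intro i j u h h'
    have h1 := (zpow_eq_iff hF).1 h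
    have h2 : (6 : ℤ) ≤ orderOf F := by exact_mod_cast h6
    by_contra hij
    have := Int.le_of_dvd (by have : i - j ≠ 0 := sub_ne_zero.2 hij; positivity)
      ((dvd_abs _ _).2 h1)
    omega
  have alt : ∀ u, σ (F u) = F (σ u) ∨ σ u = F (σ (F u)) := by
    intro u
    obtain ⟨a, ha, ⟨h1, h2⟩ | ⟨h1, h2⟩⟩ := hσ.pair u (F u)
    · left; rw [h2, h1, comm_of_mem ha]
    · right; rw [h1, h2, comm_of_mem ha]
  by_cases hgood : ∃ u, σ (F u) = F (σ u)
  · obtain ⟨u, hu⟩ := hgood
    refine mem_of_commute hF fun v => ?_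
    have step : ∀ v, σ (F v) = F (σ v) → σ (F (F v)) = F (σ (F v)) := by
      intro v hv
      rcases alt (F v) with h | h
      · exact h
      · exfalso
        rw [hv] at h
        have h3 := σ.injective (F.injective h)
        have h4 : (F ^ (0 : ℤ)) v = (F ^ (2 : ℤ)) v := by
          rw [zpow_zero, Perm.one_apply, zpow_ofNat, pow_two, Perm.mul_apply]
          exact h3
        have := hdvd h4 (by norm_num)
        omega
    have all : ∀ k : ℕ, σ (F ((F ^ k) u)) = F (σ ((F ^ k) u)) := by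
      intro k
      induction k with
      | zero => simpa using hu
      | succ k ih =>
        rw [pow_succ', Perm.mul_apply]
        exact step _ ih
    obtain ⟨k, hk⟩ := (hF u v).exists_nat_pow_eq
    rw [← hk]
    exact all k
  · exfalso
    have hbad : ∀ u, σ u = F (σ (F u)) := fun u =>
      (alt u).resolve_left fun h => hgood ⟨u, h⟩
    have hbad' : ∀ u, σ (F u) = (F ^ (-1 : ℤ)) (σ u) := by
      intro u
      conv_rhs => rw [hbad u]
      rw [zpow_neg_one, inv_self]
    obtain ⟨u⟩ := ‹Nonempty V›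
    obtain ⟨a, ha, hU⟩ := hσ {u, F u, (F ^ (3 : ℤ)) u}
    have e1 : σ (F u) = (F ^ (-1 : ℤ)) (σ u) := hbad' u
    have e3 : σ ((F ^ (3 : ℤ)) u) = (F ^ (-3 : ℤ)) (σ u) := by
      have : (F ^ (3 : ℤ)) u = F (F (F u)) := rfl
      rw [this, hbad', hbad', hbad', ← Perm.mul_apply, ← Perm.mul_apply, ← zpow_add, ← zpow_add]
      norm_num
    have e1' : a (F u) = (F ^ (1 : ℤ)) (a u) := by rw [comm_of_mem ha, zpow_one]
    have e3' : a ((F ^ (3 : ℤ)) u) = (F ^ (3 : ℤ)) (a u) := comm_zpow_of_mem ha 3 u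
    have e0' : a u = (F ^ (0 : ℤ)) (a u) := by simp
    rw [Set.image_insert_eq, Set.image_insert_eq, Set.image_singleton, Set.image_insert_eq,
      Set.image_insert_eq, Set.image_singleton, e1, e3, e1', e3'] at hU
    set w := a u with hw
    have m0 : σ u ∈ ({w, (F ^ (1 : ℤ)) w, (F ^ (3 : ℤ)) w} : Set V) := by rw [← hU]; simp
    have m1 : (F ^ (-1 : ℤ)) (σ u) ∈ ({w, (F ^ (1 : ℤ)) w, (F ^ (3 : ℤ)) w} : Set V) := by
      rw [← hU]; simp
    have m3 : (F ^ (-3 : ℤ)) (σ u) ∈ ({w, (F ^ (1 : ℤ)) w, (F ^ (3 : ℤ)) w} : Set V) := by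
      rw [← hU]; simp
    have conv : ∀ z : V, z ∈ ({w, (F ^ (1 : ℤ)) w, (F ^ (3 : ℤ)) w} : Set V) →
        ∃ j : ℤ, (j = 0 ∨ j = 1 ∨ j = 3) ∧ z = (F ^ j) w := by
      intro z hz
      simp only [Set.mem_insert_iff, Set.mem_singleton_iff] at hz
      rcases hz with h | h | h
      · exact ⟨0, Or.inl rfl, by simpa using h⟩
      · exact ⟨1, Or.inr (Or.inl rfl), h⟩
      · exact ⟨3, Or.inr (Or.inr rfl), h⟩
    obtain ⟨i, hi, hi'⟩ := conv _ m0
    obtain ⟨j, hj, hj'⟩ := conv _ m1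
    obtain ⟨k, hk, hk'⟩ := conv _ m3
    rw [hi', ← Perm.mul_apply, ← zpow_add] at hj' hk'
    have c1 := hdvd hj' (by
      rcases hi with rfl | rfl | rfl <;> rcases hj with rfl | rfl | rfl <;> norm_num)
    have hi1 : i = 1 := by omega
    subst hi1
    have c2 := hdvd hk' (by rcases hk with rfl | rfl | rfl <;> norm_num)
    omega

end Cycle

/-- Forward direction. -/
lemma forward [Finite V] (A : Subgroup (Perm V)) (hp : Primitive A) (hd : DGR A) (hb : ¬ BGR A) :
    (Nat.card V = 3 ∨ Nat.card V = 5) ∧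
      ∃ F : Perm V, F.IsCycle ∧ (∀ v, F v ≠ v) ∧ A = Subgroup.zpowers F := by
  obtain ⟨htr, hprim⟩ := hp
  -- a permutation outside `A` preserving the orbits on subsets
  obtain ⟨σ, hσ, hσA⟩ : ∃ σ, Pres A σ ∧ σ ∉ A := by
    by_contra hcon
    push Not at hcon
    exact hb (bgr_of_pres hcon)
  obtain ⟨C, c, hc⟩ := hd
  obtain ⟨x, y, hne, hxy'⟩ : ∃ x y, x ≠ y ∧ c (σ x) (σ y) ≠ c x y := by
    by_contra hcon
    push Not at hcon
    exact hσA ((hc σ).2 hcon)
  obtain ⟨a, ha, ⟨h1, h2⟩ | ⟨h1, h2⟩⟩ := hσ.pair x y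
  · exact absurd (by rw [h1, h2]; exact (hc a).1 ha x y hne) hxy'
  have hcyx : c y x ≠ c x y := by
    rw [h1, h2, (hc a).1 ha y x hne.symm] at hxy'
    exact hxy'
  have hxy : ¬ D A x y y x := by
    rintro ⟨b, hb, b1, b2⟩
    apply hcyx
    have := (hc b).1 hb x y hne
    rwa [b1, b2] at this
  have hsw : ∀ u v, D A x y u v → ∃ τ, Pres A τ ∧ τ u = v ∧ τ v = u := by
    rintro u v ⟨g, hg, rfl, rfl⟩
    refine ⟨g * (a⁻¹ * σ) * g⁻¹, ((Pres.of_mem hg).mul
      ((Pres.of_mem (A.inv_mem ha)).mul hσ)).mul (Pres.of_mem (A.inv_mem hg)), ?_, ?_⟩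
    · rw [Perm.mul_apply, inv_self, Perm.mul_apply, Perm.mul_apply, h1, inv_self]
    · rw [Perm.mul_apply, inv_self, Perm.mul_apply, Perm.mul_apply, h2, inv_self]
  have hex : ∀ u, ∃ v, D A x y u v := by
    intro u
    obtain ⟨g, hg, rfl⟩ := htr x u
    exact ⟨g y, g, hg, rfl, rfl⟩
  choose f hf using hex
  have hfu : ∀ u v, D A x y u v → v = f u := fun u v h => out_unique hxy hsw h (hf u)
  have hsurj : Function.Surjective f := by
    intro v
    obtain ⟨g, hg, rfl⟩ := htr y v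
    exact ⟨g x, (hfu _ _ ⟨g, hg, rfl, rfl⟩).symm⟩
  have hbij : Function.Bijective f := Finite.surjective_iff_bijective.1 hsurj
  set F : Perm V := Equiv.ofBijective f hbij with hFdef
  have hFf : ∀ u, F u = f u := fun u => rfl
  have hFne : ∀ u, F u ≠ u := fun u => ((hf u).ne hxy).symm
  have hcomm : ∀ a ∈ A, ∀ u, a (F u) = F (a u) := fun a ha u => hfu _ _ (D.smul ha (hf u))
  have hcommz : ∀ a ∈ A, ∀ (k : ℤ) (u : V), a ((F ^ k) u) = (F ^ k) (a u) := by
    intro a ha k u
    have hc : Commute a F := by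
      ext u
      exact hcomm a ha u
    rw [← Perm.mul_apply, ← Perm.mul_apply, (hc.zpow_right k).eq]
  have hF : ∀ u v, F.SameCycle u v := by
    rcases hprim (Perm.SameCycle.setoid F) (by
      rintro a ha u v ⟨k, hk⟩
      exact ⟨k, by rw [← hcommz a ha, hk]⟩) with h | h
    · exfalso
      have : (Perm.SameCycle.setoid F) x (F x) := ⟨1, by simp⟩
      rw [h] at this
      exact hFne x this.symm
    · intro u v
      have : (Perm.SameCycle.setoid F) u v := by rw [h]; trivial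
      exact this
  have hne' : Nonempty V := ⟨x⟩
  have hAle : A ≤ Subgroup.zpowers F := fun a ha => mem_of_commute hF (hcomm a ha)
  have hFA : F ∈ A := by
    obtain ⟨a, ha, hax⟩ := htr x (F x)
    obtain ⟨k, rfl⟩ := hAle ha
    have hax' : (F ^ k) x = (F ^ (1 : ℤ)) x := by simpa using hax
    have h1 := (zpow_eq_iff hF).1 hax'
    rw [orderOf_dvd_iff_zpow_eq_one, zpow_sub, zpow_one, mul_inv_eq_one] at h1
    rw [← h1]
    exact ha
  have hA : A = Subgroup.zpowers F :=
    le_antisymm hAle (by rw [Subgroup.zpowers_le]; exact hFA)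
  refine ⟨?_, F, ⟨x, hFne x, fun v _ => hF x v⟩, hFne, hA⟩
  have hcard := card_eq hF hFne
  have hlt : orderOf F < 6 := by
    by_contra hcon
    exact hb (hA ▸ bgr_of_six_le hF (not_lt.1 hcon))
  have hpos : 0 < orderOf F := orderOf_pos F
  have n1 : orderOf F ≠ 1 := by
    intro h
    rw [orderOf_eq_one_iff] at h
    exact hFne x (by rw [h]; rfl)
  have n2 : orderOf F ≠ 2 := by
    intro h
    apply hb
    have htop : A = ⊤ := by
      have hc2 : Nat.card A = Nat.card (Perm V) := by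
        rw [hA, Nat.card_zpowers, h, Nat.card_perm, hcard, h]
        rfl
      exact Subgroup.eq_top_of_card_eq A hc2
    rw [htop]
    exact ⟨Unit, fun _ => (), fun σ => by simp⟩
  have n4 : orderOf F ≠ 4 := by
    intro h
    have hinv : ∀ a ∈ A, ∀ u v : V, (Perm.SameCycle.setoid (F ^ (2 : ℤ))) u v →
        (Perm.SameCycle.setoid (F ^ (2 : ℤ))) (a u) (a v) := by
      rintro a ha u v ⟨k, hk⟩
      refine ⟨k, ?_⟩
      rw [← hk, ← zpow_mul, hcommz a ha]
    rcases hprim _ hinv with h' | h'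
    · have : (Perm.SameCycle.setoid (F ^ (2 : ℤ))) x ((F ^ (2 : ℤ)) x) := ⟨1, by simp⟩
      rw [h'] at this
      have h2 : (F ^ (0 : ℤ)) x = (F ^ (2 : ℤ)) x := by simpa using this
      have := (zpow_eq_iff hF).1 h2
      rw [h] at this
      norm_num at this
    · have : (Perm.SameCycle.setoid (F ^ (2 : ℤ))) x (F x) := by rw [h']; trivial
      obtain ⟨k, hk⟩ := this
      rw [← zpow_mul] at hk
      have h2 : (F ^ (2 * k)) x = (F ^ (1 : ℤ)) x := by simpa using hk
      have := (zpow_eq_iff hF).1 h2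
      rw [h] at this
      omega
  rw [hcard]
  omega

lemma exists_coord [Finite V] {F : Perm V} (hF : ∀ u v, F.SameCycle u v) (hne : ∀ u, F u ≠ u)
    [Nonempty V] {n : ℕ} [NeZero n] (hn : Nat.card V = n) :
    ∃ e : V ≃ ZMod n, ∀ v, e (F v) = e v + 1 := by
  obtain ⟨u⟩ := ‹Nonempty V›
  have ho : orderOf F = n := by
    have := card_eq hF hne (V := V)
    omega
  have key : ∀ i j : ℤ, (F ^ i) u = (F ^ j) u ↔ (i : ZMod n) = (j : ZMod n) := by
    intro i j
    rw [zpow_eq_iff hF, ho, ZMod.intCast_eq_intCast_iff, ← Int.modEq_iff_dvd]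
    exact ⟨fun h => h.symm, fun h => h.symm⟩
  set g : ZMod n → V := fun i => (F ^ (i.val : ℤ)) u with hg
  have hinj : Function.Injective g := by
    intro i j hij
    have := (key _ _).1 hij
    simpa using this
  have hbij : Function.Bijective g := by
    rw [Nat.bijective_iff_injective_and_card]
    refine ⟨hinj, ?_⟩
    rw [hn, Nat.card_zmod]
  refine ⟨(Equiv.ofBijective g hbij).symm, fun v => ?_⟩
  rw [Equiv.symm_apply_eq]
  obtain ⟨i, rfl⟩ := hbij.2 v
  have h1 : (Equiv.ofBijective g hbij).symm (g i) = i := (Equiv.ofBijective g hbij).symm_apply_apply i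
  rw [h1]
  change F ((F ^ (i.val : ℤ)) u) = (F ^ ((i + 1).val : ℤ)) u
  have h2 : F ((F ^ (i.val : ℤ)) u) = (F ^ ((i.val : ℤ) + 1)) u := by
    rw [add_comm, zpow_add, Perm.mul_apply, zpow_one]
  rw [h2, key]
  simp

lemma not_bgr {F : Perm V} {n : ℕ} [NeZero n] (e : V ≃ ZMod n) (he : ∀ v, e (F v) = e v + 1)
    (hdec : ∀ U : Finset (ZMod n), ∃ t, U.image (fun i => -i) = U.image (fun i => i + t))
    (h2 : (2 : ZMod n) ≠ 0) : ¬ BGR (Subgroup.zpowers F) := by
  rintro ⟨C, h, H⟩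
  have hek : ∀ (k : ℕ) (v : V), e ((F ^ k) v) = e v + k := by
    intro k v
    induction k with
    | zero => simp
    | succ k ih =>
      rw [pow_succ', Perm.mul_apply, he, ih]
      push_cast
      ring
  set ρ : Perm V := (e.trans (Equiv.neg (ZMod n))).trans e.symm with hρ
  have hρe : ∀ v, e (ρ v) = - e v := by
    intro v
    simp [hρ]
  have hmem : ρ ∈ Subgroup.zpowers F := by
    refine (H ρ).2 fun U => ?_
    have hfin : (e '' U).Finite := Set.toFinite _
    obtain ⟨t, ht⟩ := hdec hfin.toFinset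
    have hset : ρ '' U = (F ^ t.val) '' U := by
      apply e.injective.image_injective
      have ht' : (fun i => -i) '' (e '' U) = (fun i => i + t) '' (e '' U) := by
        have := congrArg (fun W : Finset (ZMod n) => (W : Set (ZMod n))) ht
        simpa [Finset.coe_image] using this
      rw [← Set.image_comp, ← Set.image_comp]
      rw [← Set.image_comp, ← Set.image_comp] at ht'
      refine Eq.trans ?_ (ht'.trans ?_)
      · refine Set.image_congr fun v _ => ?_
        simp only [Function.comp_apply, hρe]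
      · refine Set.image_congr fun v _ => ?_
        simp only [Function.comp_apply, hek, ZMod.natCast_val, ZMod.cast_id', id_eq]
    rw [hset]
    exact (H (F ^ t.val)).1 ⟨(t.val : ℤ), zpow_natCast F t.val⟩ U
  have h3 := comm_of_mem hmem (e.symm 0)
  have h4 := congrArg e h3
  rw [hρe, he, he, hρe, Equiv.apply_symm_apply] at h4
  apply h2
  have : (2 : ZMod n) = (-0 + 1) - (-(0 + 1)) := by ring
  rw [this, h4, sub_self]

/-- Backward direction. -/
lemma backward [Finite V] (F : Perm V) (hc : F.IsCycle) (hne : ∀ v, F v ≠ v)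
    (hn : Nat.card V = 3 ∨ Nat.card V = 5) :
    Primitive (Subgroup.zpowers F) ∧ DGR (Subgroup.zpowers F) ∧ ¬ BGR (Subgroup.zpowers F) := by
  have hF : ∀ u v, F.SameCycle u v := fun u v => hc.sameCycle (hne u) (hne v)
  have hnon : Nonempty V := ⟨hc.choose⟩
  have hcard := card_eq hF hne
  have hbgr : ¬ BGR (Subgroup.zpowers F) := by
    rcases hn with hn | hn
    · obtain ⟨e, he⟩ := exists_coord hF hne hn
      exact not_bgr e he (by decide) (by decide)
    · obtain ⟨e, he⟩ := exists_coord hF hne hn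
      exact not_bgr e he (by decide) (by decide)
  refine ⟨⟨?_, ?_⟩, ?_, hbgr⟩
  · intro x y
    obtain ⟨k, hk⟩ := hF x y
    exact ⟨F ^ k, ⟨k, rfl⟩, hk⟩
  · intro r hr
    by_cases hbot : r = ⊥
    · exact Or.inl hbot
    right
    obtain ⟨u, v, huv, hr'⟩ : ∃ u v, u ≠ v ∧ r u v := by
      by_contra hcon
      push Not at hcon
      apply hbot
      ext u v
      constructor
      · intro h
        by_contra h'
        exact hcon u v h' h
      · rintro rfl
        exact r.refl _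
    -- the set of the `j` with `r u (F ^ j u)` is a subgroup of the integers
    have hadd : ∀ i j : ℤ, r u ((F ^ i) u) → r u ((F ^ j) u) → r u ((F ^ (i + j)) u) := by
      intro i j hi hj
      refine r.trans hi ?_
      rw [zpow_add, Perm.mul_apply]
      exact hr _ ⟨i, rfl⟩ _ _ hj
    have hneg : ∀ i : ℤ, r u ((F ^ i) u) → r u ((F ^ (-i)) u) := by
      intro i hi
      have := hr (F ^ (-i)) ⟨-i, rfl⟩ _ _ hi
      rw [← Perm.mul_apply, ← zpow_add, neg_add_cancel, zpow_zero, Perm.one_apply] at this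
      exact r.symm this
    let S : AddSubgroup ℤ :=
      { carrier := {j | r u ((F ^ j) u)}
        zero_mem' := by
          change r u ((F ^ (0 : ℤ)) u)
          rw [zpow_zero]
          exact r.refl _
        add_mem' := fun {i j} hi hj => hadd i j hi hj
        neg_mem' := fun {i} hi => hneg i hi }
    obtain ⟨k, hk⟩ := hF u v
    have hkS : k ∈ S := by
      change r u ((F ^ k) u)
      rw [hk]
      exact hr'
    have hnS : (orderOf F : ℤ) ∈ S := by
      change r u ((F ^ (orderOf F : ℤ)) u)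
      rw [zpow_natCast, pow_orderOf_eq_one]
      exact r.refl _
    have hkn : ¬ (orderOf F : ℤ) ∣ k := by
      intro h
      rw [orderOf_dvd_iff_zpow_eq_one] at h
      rw [h] at hk
      exact huv hk
    have hprime : (orderOf F).Prime := by
      rw [← hcard]
      rcases hn with hn | hn
      · rw [hn]; norm_num
      · rw [hn]; norm_num
    have hcop : IsCoprime k (orderOf F : ℤ) := by
      rw [Int.isCoprime_iff_gcd_eq_one, Int.gcd_comm]
      have := (Nat.Prime.coprime_iff_not_dvd hprime).2 (fun h => hkn (Int.natCast_dvd.2 h))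
      exact this
    obtain ⟨p, q, hpq⟩ := hcop
    have h1S : (1 : ℤ) ∈ S := by
      rw [← hpq]
      refine S.add_mem ?_ ?_
      · rw [← smul_eq_mul]; exact S.zsmul_mem hkS p
      · rw [← smul_eq_mul]; exact S.zsmul_mem hnS q
    have hall : ∀ j : ℤ, r u ((F ^ j) u) := by
      intro j
      have : j ∈ S := by
        have := S.zsmul_mem h1S j
        simpa using this
      exact this
    ext a b
    refine ⟨fun _ => trivial, fun _ => ?_⟩
    obtain ⟨i, rfl⟩ := hF u a
    obtain ⟨j, rfl⟩ := hF u b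
    exact r.trans (r.symm (hall i)) (hall j)
  · refine ⟨Prop, fun a b => b = F a, fun σ => ⟨fun hσ x y _ => ?_, fun hσ => ?_⟩⟩
    · have := comm_of_mem hσ x
      change (σ y = F (σ x)) = (y = F x)
      rw [← this, σ.injective.eq_iff]
    · refine mem_of_commute hF fun u => ?_
      have := hσ u (F u) (hne u).symm
      change (σ (F u) = F (σ u)) = (F u = F u) at this
      rw [this]

lemma D.swap {A : Subgroup (Perm V)} {x y u v : V} : D A y x u v ↔ D A x y v u :=
  ⟨fun ⟨a, ha, h1, h2⟩ => ⟨a, ha, h2, h1⟩, fun ⟨a, ha, h1, h2⟩ => ⟨a, ha, h2, h1⟩⟩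

/-- The structure of the groups in `DGR` but not in `BGR`. -/
lemma structure_thm [Finite V] (A : Subgroup (Perm V)) (hd : DGR A) (hb : ¬ BGR A) :
    ∃ (F : Perm V) (x : V) (m : ℕ), (m = 3 ∨ m = 4 ∨ m = 5) ∧
      (∀ a ∈ A, a * F = F * a) ∧ (∀ u, F u ≠ u ↔ ∃ a ∈ A, a x = u) ∧
      ∀ u, F u ≠ u → (F ^ m) u = u ∧ ∀ j, 0 < j → j < m → (F ^ j) u ≠ u := by
  classical
  obtain ⟨σ, hσ, hσA⟩ : ∃ σ, Pres A σ ∧ σ ∉ A := by
    by_contra hcon
    push Not at hcon
    exact hb (bgr_of_pres hcon)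
  obtain ⟨C, c, hc⟩ := hd
  obtain ⟨x, y, hne, hxy'⟩ : ∃ x y, x ≠ y ∧ c (σ x) (σ y) ≠ c x y := by
    by_contra hcon
    push Not at hcon
    exact hσA ((hc σ).2 hcon)
  obtain ⟨a, ha, ⟨h1, h2⟩ | ⟨h1, h2⟩⟩ := hσ.pair x y
  · exact absurd (by rw [h1, h2]; exact (hc a).1 ha x y hne) hxy'
  have hcyx : c y x ≠ c x y := by
    rw [h1, h2, (hc a).1 ha y x hne.symm] at hxy'
    exact hxy'
  have hxy : ¬ D A x y y x := by
    rintro ⟨b, hb, b1, b2⟩
    apply hcyx
    have := (hc b).1 hb x y hne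
    rwa [b1, b2] at this
  have hτ : Pres A (a⁻¹ * σ) := (Pres.of_mem (A.inv_mem ha)).mul hσ
  have hτx : (a⁻¹ * σ) x = y := by rw [Perm.mul_apply, h1, inv_self]
  have hτy : (a⁻¹ * σ) y = x := by rw [Perm.mul_apply, h2, inv_self]
  set τ := a⁻¹ * σ with hτdef
  have hsw : ∀ u v, D A x y u v → ∃ τ, Pres A τ ∧ τ u = v ∧ τ v = u := by
    rintro u v ⟨g, hg, rfl, rfl⟩
    refine ⟨g * τ * g⁻¹, ((Pres.of_mem hg).mul hτ).mul (Pres.of_mem (A.inv_mem hg)), ?_, ?_⟩
    · rw [Perm.mul_apply, inv_self, Perm.mul_apply, hτx]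
    · rw [Perm.mul_apply, inv_self, Perm.mul_apply, hτy]
  have hxy2 : ¬ D A y x x y := fun h => hxy (D.swap.1 h)
  have hsw2 : ∀ u v, D A y x u v → ∃ τ, Pres A τ ∧ τ u = v ∧ τ v = u := by
    intro u v h
    obtain ⟨ρ, h1, h2, h3⟩ := hsw v u (D.swap.1 h)
    exact ⟨ρ, h1, h3, h2⟩
  -- `y` is in the orbit of `x`
  obtain ⟨b, hb, hby⟩ : ∃ b ∈ A, b x = y := by
    obtain ⟨b, hb, h⟩ := hτ {x}
    rw [Set.image_singleton, Set.image_singleton, hτx, Set.singleton_eq_singleton_iff] at h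
    exact ⟨b, hb, h.symm⟩
  have hDorb : ∀ u v, D A x y u v → (∃ a ∈ A, a x = u) ∧ (∃ a ∈ A, a x = v) := by
    rintro u v ⟨g, hg, rfl, rfl⟩
    exact ⟨⟨g, hg, rfl⟩, ⟨g * b, A.mul_mem hg hb, by rw [Perm.mul_apply, hby]⟩⟩
  have hex : ∀ u, ∃ v, ((∃ a ∈ A, a x = u) → D A x y u v) ∧ ((¬ ∃ a ∈ A, a x = u) → v = u) := by
    intro u
    by_cases h : ∃ a ∈ A, a x = u
    · obtain ⟨g, hg, rfl⟩ := h
      exact ⟨g y, fun _ => ⟨g, hg, rfl, rfl⟩, fun h => absurd ⟨g, hg, rfl⟩ h⟩
    · exact ⟨u, fun h' => absurd h' h, fun _ => rfl⟩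
  choose f hf1 hf2 using hex
  have hfu : ∀ u v, D A x y u v → v = f u := fun u v h =>
    out_unique hxy hsw h (hf1 u (hDorb u v h).1)
  have hinj : Function.Injective f := by
    intro u v huv
    by_cases hu : ∃ a ∈ A, a x = u
    · by_cases hv : ∃ a ∈ A, a x = v
      · have e1 := hf1 u hu
        have e2 := hf1 v hv
        rw [huv] at e1
        exact out_unique hxy2 hsw2 (D.swap.2 e1) (D.swap.2 e2)
      · rw [hf2 v hv] at huv
        exact absurd (huv ▸ (hDorb _ _ (hf1 u hu)).2) hv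
    · by_cases hv : ∃ a ∈ A, a x = v
      · rw [hf2 u hu] at huv
        exact absurd (huv ▸ (hDorb _ _ (hf1 v hv)).2) hu
      · rwa [hf2 u hu, hf2 v hv] at huv
  set F : Perm V := Equiv.ofBijective f (Finite.injective_iff_bijective.1 hinj) with hFdef
  have hFf : ∀ u, F u = f u := fun u => rfl
  have horb : ∀ a ∈ A, ∀ u, (∃ g ∈ A, g x = a u) ↔ ∃ g ∈ A, g x = u := by
    intro a ha u
    constructor
    · rintro ⟨g, hg, h⟩
      exact ⟨a⁻¹ * g, A.mul_mem (A.inv_mem ha) hg, by rw [Perm.mul_apply, h, inv_self]⟩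
    · rintro ⟨g, hg, rfl⟩
      exact ⟨a * g, A.mul_mem ha hg, rfl⟩
  have hcomm : ∀ a ∈ A, ∀ u, a (F u) = F (a u) := by
    intro a ha u
    by_cases hu : ∃ g ∈ A, g x = u
    · exact hfu _ _ (D.smul ha (hf1 u hu))
    · have hu' := (not_congr (horb a ha u)).2 hu
      rw [hFf, hFf, hf2 u hu, hf2 _ hu']
  have hcommn : ∀ a ∈ A, ∀ (k : ℕ) (u : V), a ((F ^ k) u) = (F ^ k) (a u) := by
    intro a ha k u
    have hc : Commute a F := by
      ext u
      exact hcomm a ha u
    rw [← Perm.mul_apply, ← Perm.mul_apply, (hc.pow_right k).eq]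
  have hsupp : ∀ u, F u ≠ u ↔ ∃ a ∈ A, a x = u := by
    intro u
    constructor
    · intro h
      by_contra h'
      exact h (hf2 u h')
    · intro h
      exact ((hf1 u h).ne hxy).symm
  have hxO : ∃ a ∈ A, a x = x := ⟨1, A.one_mem, rfl⟩
  have hFx : F x = y := (hfu x y ⟨1, A.one_mem, rfl, rfl⟩).symm
  -- no point of the orbit has period two
  have htwo : ∀ u, (∃ a ∈ A, a x = u) → F (F u) ≠ u := by
    intro u hu h
    have e1 := hf1 u hu
    have e2 := hf1 (F u) (hDorb _ _ e1).2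
    rw [← hFf, h] at e2
    exact e1.antisymm hxy e2
  have hmain : ∃ j, 0 < j ∧ j < 6 ∧ (F ^ j) x = x := by
    by_contra hcon
    push Not at hcon
    have hcon' : ∀ w, (∃ a ∈ A, a x = w) → ∀ j : ℕ, 0 < j → j < 6 → (F ^ j) w ≠ w := by
      rintro w ⟨g, hg, rfl⟩ j hj hj' h
      rw [← hcommn g hg] at h
      exact hcon j hj hj' (g.injective h)
    have hz : ∀ w, (∃ a ∈ A, a x = w) → ∀ i j : ℤ, (F ^ i) w = (F ^ j) w → |i - j| < 6 → i = j := by
      intro w hw
      have aux : ∀ i j : ℤ, (F ^ i) w = (F ^ j) w → |i - j| < 6 → ¬ i < j := by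
        intro i j h h' hlt
        obtain ⟨k, hk⟩ : ∃ k : ℕ, (k : ℤ) = j - i := ⟨(j - i).toNat, by omega⟩
        have hk1 : 0 < k := by omega
        have hk2 : k < 6 := by
          rw [abs_lt] at h'
          omega
        refine hcon' w hw k hk1 hk2 ?_
        rw [← zpow_natCast, hk, sub_eq_add_neg, add_comm, zpow_add, Perm.mul_apply, ← h,
          ← Perm.mul_apply, ← zpow_add, neg_add_cancel, zpow_zero, Perm.one_apply]
      intro i j h h'
      rcases lt_trichotomy i j with hlt | heq | hgt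
      · exact absurd hlt (aux i j h h')
      · exact heq
      · exact absurd hgt (aux j i h.symm (by rwa [abs_sub_comm]))
    have step : ∀ u, (∃ a ∈ A, a x = u) → τ u = F (τ (F u)) → τ (F u) = F (τ (F (F u))) := by
      intro u hu h
      obtain ⟨g, hg, ⟨e1, e2⟩ | ⟨e1, e2⟩⟩ := hτ.pair (F u) (F (F u))
      · exfalso
        rw [hcomm g hg, ← e1, ← h] at e2
        exact htwo u hu (τ.injective e2)
      · rw [e1, e2, hcomm g hg]
    have orbF : ∀ u, (∃ a ∈ A, a x = u) → ∃ a ∈ A, a x = F u := fun u hu =>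
      (hDorb _ _ (hf1 u hu)).2
    have s0 : τ x = F (τ (F x)) := by rw [hFx, hτy, hτx, hFx]
    have s1 := step x hxO s0
    have s2 := step (F x) (orbF x hxO) s1
    have t1 : τ (F x) = (F ^ (-1 : ℤ)) (τ x) := by rw [s0, zpow_neg_one, inv_self]
    have t2 : τ (F (F x)) = (F ^ (-2 : ℤ)) (τ x) := by
      have : τ (F (F x)) = (F ^ (-1 : ℤ)) (τ (F x)) := by
        conv_rhs => rw [s1]
        rw [zpow_neg_one, inv_self]
      rw [this, t1, ← Perm.mul_apply, ← zpow_add]
      norm_num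
    have t3 : τ ((F ^ (3 : ℤ)) x) = (F ^ (-3 : ℤ)) (τ x) := by
      have h3 : (F ^ (3 : ℤ)) x = F (F (F x)) := rfl
      have : τ (F (F (F x))) = (F ^ (-1 : ℤ)) (τ (F (F x))) := by
        conv_rhs => rw [s2]
        rw [zpow_neg_one, inv_self]
      rw [h3, this, t2, ← Perm.mul_apply, ← zpow_add]
      norm_num
    obtain ⟨g, hg, hU⟩ := hτ {x, F x, (F ^ (3 : ℤ)) x}
    have e1' : g (F x) = (F ^ (1 : ℤ)) (g x) := by rw [hcomm g hg, zpow_one]
    have e3' : g ((F ^ (3 : ℤ)) x) = (F ^ (3 : ℤ)) (g x) := by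
      have := hcommn g hg 3 x
      simpa using this
    rw [Set.image_insert_eq, Set.image_insert_eq, Set.image_singleton, Set.image_insert_eq,
      Set.image_insert_eq, Set.image_singleton, t1, t3, e1', e3'] at hU
    have hwO : ∃ a ∈ A, a x = g x := ⟨g, hg, rfl⟩
    set w := g x with hw
    have m0 : τ x ∈ ({w, (F ^ (1 : ℤ)) w, (F ^ (3 : ℤ)) w} : Set V) := by rw [← hU]; simp
    have m1 : (F ^ (-1 : ℤ)) (τ x) ∈ ({w, (F ^ (1 : ℤ)) w, (F ^ (3 : ℤ)) w} : Set V) := by
      rw [← hU]; simp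
    have m3 : (F ^ (-3 : ℤ)) (τ x) ∈ ({w, (F ^ (1 : ℤ)) w, (F ^ (3 : ℤ)) w} : Set V) := by
      rw [← hU]; simp
    have conv : ∀ z : V, z ∈ ({w, (F ^ (1 : ℤ)) w, (F ^ (3 : ℤ)) w} : Set V) →
        ∃ j : ℤ, (j = 0 ∨ j = 1 ∨ j = 3) ∧ z = (F ^ j) w := by
      intro z hz
      simp only [Set.mem_insert_iff, Set.mem_singleton_iff] at hz
      rcases hz with h | h | h
      · exact ⟨0, Or.inl rfl, by simpa using h⟩
      · exact ⟨1, Or.inr (Or.inl rfl), h⟩
      · exact ⟨3, Or.inr (Or.inr rfl), h⟩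
    obtain ⟨i, hi, hi'⟩ := conv _ m0
    obtain ⟨j, hj, hj'⟩ := conv _ m1
    obtain ⟨k, hk, hk'⟩ := conv _ m3
    rw [hi', ← Perm.mul_apply, ← zpow_add] at hj' hk'
    have c1 := hz w hwO _ _ hj' (by
      rcases hi with rfl | rfl | rfl <;> rcases hj with rfl | rfl | rfl <;> norm_num)
    have hi1 : i = 1 := by omega
    subst hi1
    have c2 := hz w hwO _ _ hk' (by rcases hk with rfl | rfl | rfl <;> norm_num)
    omega
  -- the least period
  have hfind := Nat.find_spec hmain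
  have hmin := fun j (hj : j < Nat.find hmain) => Nat.find_min hmain hj
  set m := Nat.find hmain with hm
  obtain ⟨m0, m6, hmx⟩ := hfind
  have m1 : m ≠ 1 := by
    intro h
    rw [h, pow_one] at hmx
    exact (hsupp x).2 hxO hmx
  have m2 : m ≠ 2 := by
    intro h
    rw [h, pow_two, Perm.mul_apply] at hmx
    exact htwo x hxO hmx
  refine ⟨F, x, m, by omega, fun a ha => by ext u; exact hcomm a ha u, hsupp, fun u hu => ?_⟩
  obtain ⟨g, hg, rfl⟩ := (hsupp u).1 hu
  refine ⟨by rw [← hcommn g hg, hmx], fun j hj hjm h => ?_⟩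
  rw [← hcommn g hg] at h
  exact hmin j hjm ⟨hj, by omega, g.injective h⟩

/-- **Theorem.** (1) Let `A` be a permutation group in `DGR` but not in `BGR`. Then some permutation
`F` commutes with all elements of `A`, the support of `F` is an orbit of `A` and all nontrivial
cycles of `F` have the same length `3`, `4` or `5`.
(2) The primitive permutation groups in `DGR` but not in `BGR` are exactly the groups generated by
a cycle of length `3` or `5` on `3` or `5` points. -/
theorem result (V : Type) [Finite V] (A : Subgroup (Perm V)) :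
    (DGR A → ¬ BGR A →
      ∃ (F : Perm V) (x : V) (m : ℕ), (m = 3 ∨ m = 4 ∨ m = 5) ∧
        (∀ a ∈ A, a * F = F * a) ∧ (∀ u, F u ≠ u ↔ ∃ a ∈ A, a x = u) ∧
        ∀ u, F u ≠ u → (F ^ m) u = u ∧ ∀ j, 0 < j → j < m → (F ^ j) u ≠ u) ∧
    ((Primitive A ∧ DGR A ∧ ¬ BGR A) ↔
      (Nat.card V = 3 ∨ Nat.card V = 5) ∧
        ∃ F : Perm V, F.IsCycle ∧ (∀ v, F v ≠ v) ∧ A = Subgroup.zpowers F) := by
  refine ⟨fun hd hb => structure_thm A hd hb, ?_⟩
  constructor
  · rintro ⟨h1, h2, h3⟩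
    exact forward A h1 h2 h3
  · rintro ⟨h1, F, h2, h3, rfl⟩
    exact backward F h2 h3 h1

end Pool.Agent.Results.MP_c04211_al.OnlyC3C5
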